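import Pool.Agent.W2helper28.FC.Main
import Pool.Agent.helper213_IG.RF1

set_option autoImplicit false

/-!
# The semigroups `IG(E(P_n))`, `n ≥ 5`, admit no finite complete rewriting system

Idea of the proof. Let `a` be the element of `IG(E(P_n))` with the strands `1 - 1`, `2 - 2`, `3 - 4` (all
other points are isolated), `b` the element with the strands `1 - 2`, `2 - 1`, `3 - 4` (with the same
weight), and `ε` the idempotent of rank three which joins the strands `1` and `2` and has the strands
`3` and `4`. Then `a b = b a`, `ε a = ε b` and `a ε = b ε`. So in a word for `ε a ^ k ε` a crossing of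
the two strands can be absorbed by the left end or by the right end. Cutting the words of idempotents
greedily into segments of rank at least three defines the invariants (number of cuts, left and right
ideals of the product of the letters between the first and the last cut) which show that all words
representing `ε a ^ k ε` look like this: short factors do not reach from one end to the other, and between
the ends there are two strands. The number (modulo two) of crossings absorbed by the left end in a
sequence of rewritings is then well defined on the loops of the rewriting graph, and it is zero for the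
loops given by the critical pairs of a finite complete rewriting system if `k` is large. But the loop
`ε b a ^ k ε = ε a ^ k b ε` has one crossing absorbed on the left and one on the right.
-/

namespace Pool.Agent.Results.MP_e3ace9_al.NoCompleteRewriting

/-! ## The semigroup `IG(E(P_n))` -/

/-- A relation on the `2n` points `[n] ∪ [n]'`: the point `(false, i)` is `i` (upper row) and
`(true, i)` is `i'` (lower row). -/
abbrev Rl (n : ℕ) : Type := Bool × Fin n → Bool × Fin n → Prop

/-- The points of `α` placed in rows `0` and `1` of the three row picture. -/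
def upperPt {n : ℕ} (p : Bool × Fin n) : Fin 3 × Fin n := (if p.1 = true then 1 else 0, p.2)

/-- The points of `β` placed in rows `1` and `2` of the three row picture. -/
def lowerPt {n : ℕ} (p : Bool × Fin n) : Fin 3 × Fin n := (if p.1 = true then 2 else 1, p.2)

/-- The points of the product placed in the outer rows `0` and `2`. -/
def outerPt {n : ℕ} (p : Bool × Fin n) : Fin 3 × Fin n := (if p.1 = true then 2 else 0, p.2)

/-- Adjacency in the combined three row graph of `α` (on rows `0,1`) and `β` (on rows `1,2`). -/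
def Adj {n : ℕ} (α β : Rl n) (x y : Fin 3 × Fin n) : Prop :=
  (∃ p q, α p q ∧ x = upperPt p ∧ y = upperPt q) ∨ (∃ p q, β p q ∧ x = lowerPt p ∧ y = lowerPt q)

/-- The product in the partition monoid: two outer points are related when they are connected in
the combined graph. -/
def pmul {n : ℕ} (α β : Rl n) : Rl n := fun p q => Relation.EqvGen (Adj α β) (outerPt p) (outerPt q)

/-- The idempotents of the partition monoid `P_n`: the set partitions (equivalence relations) `α` of
`[n] ∪ [n]'` with `α α = α`. -/
def EP (n : ℕ) : Type := {α : Rl n // Equivalence α ∧ pmul α α = α}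

/-- `(e, f)` is a basic pair: `ef` or `fe` is one of `e`, `f`. -/
def BasicPair {n : ℕ} (e f : EP n) : Prop :=
  pmul e.1 f.1 = e.1 ∨ pmul e.1 f.1 = f.1 ∨ pmul f.1 e.1 = e.1 ∨ pmul f.1 e.1 = f.1

/-- The defining relations `x_e x_f = x_{ef}` of `IG(E(P_n))`, for basic pairs `(e, f)`. -/
inductive DefRel (n : ℕ) : FreeSemigroup (EP n) → FreeSemigroup (EP n) → Prop
  | mk (e f g : EP n) (hb : BasicPair e f) (hg : pmul e.1 f.1 = g.1) :
      DefRel n (FreeSemigroup.of e * FreeSemigroup.of f) (FreeSemigroup.of g)

/-- The free idempotent-generated semigroup `IG(E(P_n))`. -/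
def IGP (n : ℕ) : Type := (conGen (DefRel n)).Quotient

instance (n : ℕ) : Semigroup (IGP n) := inferInstanceAs (Semigroup (conGen (DefRel n)).Quotient)

/-! ## Complete rewriting systems -/

/-- One rewriting step on the words over `A` (the elements of the free semigroup `A⁺`): a factor `l`
is replaced by `r`, where `(l, r)` is a rule. -/
inductive Rew {A : Type} (R : Set (FreeSemigroup A × FreeSemigroup A)) :
    FreeSemigroup A → FreeSemigroup A → Prop
  | rule (l r : FreeSemigroup A) (h : (l, r) ∈ R) : Rew R l r
  | left (c u v : FreeSemigroup A) (h : Rew R u v) : Rew R (c * u) (c * v)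
  | right (c u v : FreeSemigroup A) (h : Rew R u v) : Rew R (u * c) (v * c)

/-- The semigroup `S` admits a finite complete rewriting system: there are a finite alphabet `A`, a
surjective homomorphism `φ : A⁺ → S` and a finite set `R` of rules which is terminating and confluent
and such that two words have the same image in `S` if and only if they are equivalent modulo `R`. -/
def AdmitsFCRS (S : Type) [Semigroup S] : Prop :=
  ∃ (A : Type) (_ : Finite A) (φ : FreeSemigroup A →ₙ* S)
    (R : Set (FreeSemigroup A × FreeSemigroup A)),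
    R.Finite ∧ Function.Surjective φ ∧
    (∀ u v, φ u = φ v ↔ Relation.EqvGen (Rew R) u v) ∧
    WellFounded (fun v u => Rew R u v) ∧
    ∀ u v w, Relation.ReflTransGen (Rew R) u v → Relation.ReflTransGen (Rew R) u w →
      ∃ z, Relation.ReflTransGen (Rew R) v z ∧ Relation.ReflTransGen (Rew R) w z

/-! ## Comparison with the library versions -/

section Bridge

open Pool.Agent.H213

variable {n : ℕ}

theorem pmul_eq (α β : Rl n) : pmul α β = PM.mulr α β := by
  have h : Adj α β = PM.gen α β := by
    funext x y
    rfl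
  funext p q
  unfold pmul PM.mulr
  rw [h]
  rfl

/-- the idempotent of `PM n` given by an element of `EP n` -/
def toId (e : EP n) : Idem (PM n) := ⟨⟨e.1, e.2.1⟩, PM.ext (by
  rw [PM.mul_r]
  exact (pmul_eq _ _).symm.trans e.2.2)⟩

theorem toId_mul_r (e f : EP n) : ((toId e : PM n) * (toId f : PM n)).r = pmul e.1 f.1 := by
  rw [PM.mul_r, pmul_eq]
  rfl

/-- the inverse -/
def ofId (e : Idem (PM n)) : EP n := ⟨(e : PM n).r, (e : PM n).eqv, by
  rw [pmul_eq, ← PM.mul_r]
  exact congrArg PM.r e.2⟩

theorem ofId_toId (e : EP n) : ofId (toId e) = e := rfl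

theorem toId_ofId (e : Idem (PM n)) : toId (ofId e) = e := rfl

theorem mul_toId_iff (e f g : EP n) :
    (toId e : PM n) * (toId f : PM n) = toId g ↔ pmul e.1 f.1 = g.1 := by
  constructor
  · intro h
    have := congrArg PM.r h
    rwa [toId_mul_r] at this
  · intro h
    apply PM.ext
    rw [toId_mul_r]
    exact h

theorem basic_iff (e f : EP n) : Basic (toId e : PM n) (toId f : PM n) ↔ BasicPair e f := by
  unfold Basic BasicPair
  rw [mul_toId_iff, mul_toId_iff, mul_toId_iff, mul_toId_iff]

/-- the canonical map from words to the monoid `IG (PM n)` -/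
def wmap : FreeSemigroup (EP n) →ₙ* IG (PM n) := FreeSemigroup.lift (fun e => io (toId e))

theorem conGen_le_ker : conGen (DefRel n) ≤ Con.ker (wmap (n := n)) := by
  rw [Con.conGen_le]
  intro x y h
  cases h with
  | mk e f g hb hg =>
    rw [Con.ker_rel]
    rw [map_mul]
    unfold wmap
    rw [FreeSemigroup.lift_of, FreeSemigroup.lift_of, FreeSemigroup.lift_of]
    exact io_mul ((basic_iff e f).2 hb) ((mul_toId_iff e f g).2 hg)

/-- the canonical map `IG(E(P_n)) → IG (PM n)` -/
def fwd : IGP n →ₙ* IG (PM n) where
  toFun := fun x => Quotient.lift (s := (conGen (DefRel n)).toSetoid) (fun w => wmap w)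
    (fun a b h => conGen_le_ker h) x
  map_mul' := by
    intro x y
    induction x using Quotient.inductionOn
    induction y using Quotient.inductionOn
    exact map_mul wmap _ _

/-- class of a word -/
def cl (w : FreeSemigroup (EP n)) : IGP n := Quotient.mk (conGen (DefRel n)).toSetoid w

theorem cl_surj (x : IGP n) : ∃ w, cl w = x := Quotient.exists_rep x

theorem fwd_cl (w : FreeSemigroup (EP n)) : fwd (cl w) = wmap w := rfl

/-- generator of `IGP n` -/
def gn (e : EP n) : IGP n := cl (FreeSemigroup.of e)

theorem gn_mul (e f g : EP n) (hb : BasicPair e f) (hg : pmul e.1 f.1 = g.1) :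
    gn e * gn f = gn g :=
  Quotient.sound (s := (conGen (DefRel n)).toSetoid) (ConGen.Rel.of _ _ (DefRel.mk e f g hb hg))

theorem cl_mul (u v : FreeSemigroup (EP n)) : cl (u * v) = cl u * cl v := rfl

/-- the map back -/
noncomputable def bwd : IG (PM n) →* WithOne (IGP n) :=
  IG.lift (fun e => ((gn (ofId e) : IGP n) : WithOne (IGP n))) (by
    intro e f g hb hg
    rw [← WithOne.coe_mul]
    congr 1
    exact gn_mul _ _ _ ((basic_iff _ _).1 hb) ((mul_toId_iff _ _ _).1 hg))

theorem bwd_wmap (w : FreeSemigroup (EP n)) : bwd (wmap w) = ((cl w : IGP n) : WithOne (IGP n)) := by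
  induction w using FreeSemigroup.recOnMul with
  | ih1 e =>
    unfold wmap bwd
    rw [FreeSemigroup.lift_of, IG.lift_io]
    rfl
  | ih2 e w h1 h2 =>
    rw [map_mul, map_mul, h1, h2]
    rfl

theorem fwd_injective : Function.Injective (fwd (n := n)) := by
  intro x y h
  obtain ⟨a, rfl⟩ := cl_surj x
  obtain ⟨b, rfl⟩ := cl_surj y
  rw [fwd_cl, fwd_cl] at h
  have := congrArg bwd h
  rw [bwd_wmap, bwd_wmap] at this
  exact WithOne.coe_injective this

theorem exists_word : ∀ v : List (Idem (PM n)), v ≠ [] → ∃ w : FreeSemigroup (EP n), wmap w = mkw v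
  | [], h => absurd rfl h
  | [e], _ => ⟨FreeSemigroup.of (ofId e), by
      unfold wmap
      rw [FreeSemigroup.lift_of]
      rfl⟩
  | e :: e' :: v, _ => by
    obtain ⟨w, hw⟩ := exists_word (e' :: v) (by simp)
    refine ⟨FreeSemigroup.of (ofId e) * w, ?_⟩
    rw [map_mul, hw, mkw_cons]
    unfold wmap
    rw [FreeSemigroup.lift_of]
    rfl

end Bridge

/-! ## Words as lists -/

section Lists

open Relation
open Pool.Agent.W2helper28.FC (Step pv)

variable {A : Type}

/-- the list of letters of a word -/
def toL (u : FreeSemigroup A) : List A := u.head :: u.tail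

theorem toL_mul (u v : FreeSemigroup A) : toL (u * v) = toL u ++ toL v := by
  unfold toL
  rw [FreeSemigroup.head_mul, FreeSemigroup.tail_mul]
  rfl

theorem toL_ne (u : FreeSemigroup A) : toL u ≠ [] := by simp [toL]

theorem toL_surj {w : List A} (h : w ≠ []) : ∃ u : FreeSemigroup A, toL u = w := by
  cases w with
  | nil => exact absurd rfl h
  | cons a w => exact ⟨⟨a, w⟩, rfl⟩

theorem toL_inj {u v : FreeSemigroup A} (h : toL u = toL v) : u = v := by
  unfold toL at h
  rw [List.cons.injEq] at h
  exact FreeSemigroup.ext h.1 h.2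

/-- the rules as pairs of lists -/
def RL (R : Set (FreeSemigroup A × FreeSemigroup A)) : Set (List A × List A) :=
  (fun p => (toL p.1, toL p.2)) '' R

variable {R : Set (FreeSemigroup A × FreeSemigroup A)}

theorem step_of_rew {u v : FreeSemigroup A} (h : Rew R u v) : Step (RL R) (toL u) (toL v) := by
  induction h with
  | rule l r h => exact ⟨[], [], toL l, toL r, ⟨(l, r), h, rfl⟩, by simp, by simp⟩
  | left c u v _ ih =>
    have := ih.ctx (toL c) []
    simpa [toL_mul] using this
  | right c u v _ ih =>
    have := ih.ctx [] (toL c)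
    simpa [toL_mul] using this

theorem rew_left {u v : FreeSemigroup A} (h : Rew R u v) (p : List A) :
    ∃ u' v', toL u' = p ++ toL u ∧ toL v' = p ++ toL v ∧ Rew R u' v' := by
  by_cases hp : p = []
  · subst hp
    exact ⟨u, v, by simp, by simp, h⟩
  · obtain ⟨c, rfl⟩ := toL_surj hp
    exact ⟨c * u, c * v, toL_mul _ _, toL_mul _ _, Rew.left _ _ _ h⟩

theorem rew_right {u v : FreeSemigroup A} (h : Rew R u v) (q : List A) :
    ∃ u' v', toL u' = toL u ++ q ∧ toL v' = toL v ++ q ∧ Rew R u' v' := by
  by_cases hq : q = []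
  · subst hq
    exact ⟨u, v, by simp, by simp, h⟩
  · obtain ⟨c, rfl⟩ := toL_surj hq
    exact ⟨u * c, v * c, toL_mul _ _, toL_mul _ _, Rew.right _ _ _ h⟩

theorem rew_of_step {w w' : List A} (h : Step (RL R) w w') :
    ∃ u v, toL u = w ∧ toL v = w' ∧ Rew R u v := by
  obtain ⟨p, q, l, r, ⟨⟨l', r'⟩, h1, h2⟩, rfl, rfl⟩ := h
  simp only [Prod.mk.injEq] at h2
  obtain ⟨rfl, rfl⟩ := h2
  obtain ⟨u1, v1, e1, e2, h3⟩ := rew_left (Rew.rule l' r' h1) p
  obtain ⟨u2, v2, e3, e4, h4⟩ := rew_right h3 q
  exact ⟨u2, v2, by rw [e3, e1], by rw [e4, e2], h4⟩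

theorem eqv_step {u v : FreeSemigroup A} (h : EqvGen (Rew R) u v) :
    EqvGen (Step (RL R)) (toL u) (toL v) := by
  induction h with
  | rel x y h => exact EqvGen.rel _ _ (step_of_rew h)
  | refl x => exact EqvGen.refl _
  | symm x y _ ih => exact EqvGen.symm _ _ ih
  | trans x y z _ _ ih1 ih2 => exact EqvGen.trans _ _ _ ih1 ih2

theorem rtg_step {u v : FreeSemigroup A} (h : ReflTransGen (Rew R) u v) :
    ReflTransGen (Step (RL R)) (toL u) (toL v) := by
  induction h with
  | refl => exact ReflTransGen.refl
  | tail _ h ih => exact ReflTransGen.tail ih (step_of_rew h)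

theorem rtg_rew {w w' : List A} (h : ReflTransGen (Step (RL R)) w w') :
    w = w' ∨ ∃ u v, toL u = w ∧ toL v = w' ∧ ReflTransGen (Rew R) u v := by
  induction h with
  | refl => exact Or.inl rfl
  | tail _ h ih =>
    obtain ⟨u1, v1, e1, e2, h1⟩ := rew_of_step h
    right
    rcases ih with rfl | ⟨u, v, e3, e4, h2⟩
    · exact ⟨u1, v1, e1, e2, ReflTransGen.single h1⟩
    · have : v = u1 := toL_inj (e4.trans e1.symm)
      subst this
      exact ⟨u, v1, e3, e2, ReflTransGen.tail h2 h1⟩

theorem wf_step (h : WellFounded (fun v u => Rew R u v)) :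
    WellFounded (fun b a => Step (RL R) a b) := by
  have key : ∀ u : FreeSemigroup A, Acc (fun b a => Step (RL R) a b) (toL u) := by
    intro u
    induction u using h.induction with
    | _ u ih =>
      constructor
      intro b hb
      obtain ⟨u1, v1, e1, e2, h1⟩ := rew_of_step hb
      have : u1 = u := toL_inj e1
      subst this
      rw [← e2]
      exact ih v1 h1
  constructor
  intro a
  constructor
  intro b hb
  obtain ⟨u1, v1, e1, e2, h1⟩ := rew_of_step hb
  rw [← e2]
  exact key v1

theorem conf_step
    (h : ∀ u v w, ReflTransGen (Rew R) u v → ReflTransGen (Rew R) u w →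
      ∃ z, ReflTransGen (Rew R) v z ∧ ReflTransGen (Rew R) w z) (a b c : List A)
    (hab : ReflTransGen (Step (RL R)) a b) (hac : ReflTransGen (Step (RL R)) a c) :
    ∃ d, ReflTransGen (Step (RL R)) b d ∧ ReflTransGen (Step (RL R)) c d := by
  rcases rtg_rew hab with rfl | ⟨u, v, e1, e2, h1⟩
  · exact ⟨c, hac, ReflTransGen.refl⟩
  rcases rtg_rew hac with rfl | ⟨u', w, e3, e4, h2⟩
  · exact ⟨b, ReflTransGen.refl, hab⟩
  have : u = u' := toL_inj (e1.trans e3.symm)
  subst this
  obtain ⟨z, h3, h4⟩ := h u v w h1 h2
  exact ⟨toL z, e2 ▸ rtg_step h3, e4 ▸ rtg_step h4⟩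

theorem pv_toL {M : Type} [Monoid M] (ψ : FreeSemigroup A →ₙ* M) (u : FreeSemigroup A) :
    pv (fun a => ψ (FreeSemigroup.of a)) (toL u) = ψ u := by
  induction u using FreeSemigroup.recOnMul with
  | ih1 a => simp [toL, FreeSemigroup.of]
  | ih2 a u h1 h2 => rw [toL_mul, Pool.Agent.W2helper28.FC.pv_append, h1, h2, map_mul]

end Lists

/-- **Theorem.** For every `n ≥ 5` the free idempotent-generated semigroup `IG(E(P_n))` over the
biordered set of idempotents of the partition monoid `P_n` admits no finite complete rewriting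
system. -/
theorem result (n : ℕ) (hn : 5 ≤ n) : ¬ AdmitsFCRS (IGP n) := by
  rintro ⟨A, hA, φ, R, hfin, hsurj, hpres, hwf, hconf⟩
  have hpv : ∀ u : FreeSemigroup A, Pool.Agent.W2helper28.FC.pv
      (fun a => (fwd.comp φ) (FreeSemigroup.of a)) (toL u) = fwd (φ u) := fun u =>
    pv_toL (fwd.comp φ) u
  refine Pool.Agent.W2helper28.FC.no_complete hn (A := A)
    (fun a => (fwd.comp φ) (FreeSemigroup.of a)) (RL R) (hfin.image _) ?_ ?_ ?_ (wf_step hwf)
    (conf_step hconf)
  · rintro l r ⟨⟨l', r'⟩, h1, h2⟩
    simp only [Prod.mk.injEq] at h2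
    obtain ⟨rfl, rfl⟩ := h2
    rw [hpv, hpv]
    congr 1
    exact (hpres _ _).2 (Relation.EqvGen.rel _ _ (Rew.rule _ _ h1))
  · intro w w' hw hw' h
    obtain ⟨u, rfl⟩ := toL_surj hw
    obtain ⟨v, rfl⟩ := toL_surj hw'
    rw [hpv, hpv] at h
    exact eqv_step ((hpres _ _).1 (fwd_injective h))
  · intro u hu
    obtain ⟨W, hW⟩ := exists_word u hu
    obtain ⟨w, hw⟩ := hsurj (cl W)
    refine ⟨toL w, toL_ne w, ?_⟩
    rw [hpv, hw, fwd_cl, hW]

end Pool.Agent.Results.MP_e3ace9_al.NoCompleteRewriting
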